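import Pool.Agent.Helper89.Slab.Defs

/-!
# Moments of the averaged functions (project SLAB, module S2)
-/

namespace Slab

open MeasureTheory Set

namespace Mom

theorem cs {r : ℝ → ℝ} {L : ℝ} (hs : ∀ s, L ≤ |s| → r s = 0) : HasCompactSupport r := by
  apply HasCompactSupport.intro (K := Icc (-|L|) |L|) isCompact_Icc
  intro s hsn
  apply hs
  by_contra hcon
  push Not at hcon
  apply hsn
  exact abs_le.mp (hcon.le.trans (le_abs_self L))

theorem int_mul {r w : ℝ → ℝ} (hc : Continuous r) {L : ℝ} (hs : ∀ s, L ≤ |s| → r s = 0)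
    (hw : Continuous w) : Integrable (fun s => w s * r s) := by
  apply Continuous.integrable_of_hasCompactSupport (hw.mul hc)
  exact (cs hs).mul_left

theorem general {r w : ℝ → ℝ} (hc : Continuous r) {L : ℝ} (hs : ∀ s, L ≤ |s| → r s = 0)
    (hw : Continuous w) (x : ℝ) :
    ∫ s, w s * A x r s = ∫ u in (-1 : ℝ)..1, ∫ s, w (s + x * u) * r s := by
  have h1 : ∀ s, w s * A x r s = ∫ u in Ioc (-1 : ℝ) 1, w s * r (s - x * u) := by
    intro s
    unfold A
    rw [← intervalIntegral.integral_const_mul, intervalIntegral.integral_of_le (by norm_num)]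
  have hf : Continuous (fun p : ℝ × ℝ => w p.1 * r (p.1 - x * p.2)) := by fun_prop
  have hint : Integrable (fun p : ℝ × ℝ => w p.1 * r (p.1 - x * p.2))
      (volume.prod (volume.restrict (Ioc (-1 : ℝ) 1))) := by
    have h2 : (volume : Measure ℝ).prod ((volume : Measure ℝ).restrict (Ioc (-1 : ℝ) 1)) =
        ((volume : Measure ℝ).prod volume).restrict (univ ×ˢ Ioc (-1 : ℝ) 1) := by
      rw [← Measure.prod_restrict, Measure.restrict_univ]
    rw [h2]
    have h3 : IntegrableOn (fun p : ℝ × ℝ => w p.1 * r (p.1 - x * p.2))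
        (Icc (-(|L| + |x|)) (|L| + |x|) ×ˢ Icc (-1 : ℝ) 1)
        ((volume : Measure ℝ).prod volume) :=
      hf.continuousOn.integrableOn_compact (isCompact_Icc.prod isCompact_Icc)
    apply IntegrableOn.of_forall_sdiff_eq_zero h3
      (MeasurableSet.univ.prod measurableSet_Ioc)
    rintro ⟨s, u⟩ ⟨hu, hn⟩
    have hu2 : u ∈ Ioc (-1 : ℝ) 1 := hu.2
    have hs2 : ¬ (s ∈ Icc (-(|L| + |x|)) (|L| + |x|)) := by
      intro h
      exact hn ⟨h, Ioc_subset_Icc_self hu2⟩
    have h4 : |L| + |x| < |s| := by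
      by_contra hcon
      push Not at hcon
      exact hs2 (abs_le.mp hcon)
    have h5 : |x * u| ≤ |x| := by
      rw [abs_mul]
      have : |u| ≤ 1 := abs_le.mpr ⟨hu2.1.le, hu2.2⟩
      nlinarith [abs_nonneg x]
    have h6 : L ≤ |s - x * u| := by
      have h7 := abs_sub_abs_le_abs_sub s (x * u)
      have h8 := le_abs_self L
      linarith
    simp only
    rw [hs _ h6, mul_zero]
  calc ∫ s, w s * A x r s = ∫ s, ∫ u in Ioc (-1 : ℝ) 1, w s * r (s - x * u) := by
        simp_rw [h1]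
    _ = ∫ u in Ioc (-1 : ℝ) 1, ∫ s, w s * r (s - x * u) := integral_integral_swap hint
    _ = ∫ u in Ioc (-1 : ℝ) 1, ∫ s, w (s + x * u) * r s := by
        congr 1
        funext u
        have h9 := integral_add_right_eq_self (μ := (volume : Measure ℝ))
          (fun s => w s * r (s - x * u)) (x * u)
        rw [← h9]
        congr 1
        funext s
        rw [add_sub_cancel_right]
    _ = ∫ u in (-1 : ℝ)..1, ∫ s, w (s + x * u) * r s := by
        rw [intervalIntegral.integral_of_le (by norm_num)]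

theorem lin_int {f g : ℝ → ℝ} (hf : Integrable f) (hg : Integrable g) (c : ℝ) :
    Integrable (fun s => f s + c * g s) := hf.add (hg.const_mul c)

theorem lin_eq {f g : ℝ → ℝ} (hf : Integrable f) (hg : Integrable g) (c : ℝ) :
    ∫ s, (f s + c * g s) = (∫ s, f s) + c * ∫ s, g s := by
  rw [integral_add hf (hg.const_mul c), integral_const_mul]

/-- integral of a quartic over `[-1, 1]` -/
theorem quartic (a b c d e : ℝ) :
    ∫ u in (-1 : ℝ)..1, (a + b * u + c * u ^ 2 + d * u ^ 3 + e * u ^ 4) =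
      2 * a + 2 * c / 3 + 2 * e / 5 := by
  have h := intervalIntegral.integral_eq_sub_of_hasDerivAt (a := (-1 : ℝ)) (b := 1)
    (f := fun u => a * u + b / 2 * u ^ 2 + c / 3 * u ^ 3 + d / 4 * u ^ 4 + e / 5 * u ^ 5)
    (f' := fun u => a + b * u + c * u ^ 2 + d * u ^ 3 + e * u ^ 4) (by
      intro u _
      have h1 := (hasDerivAt_id u).const_mul a
      have h2 := (hasDerivAt_pow 2 u).const_mul (b / 2)
      have h3 := (hasDerivAt_pow 3 u).const_mul (c / 3)
      have h4 := (hasDerivAt_pow 4 u).const_mul (d / 4)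
      have h5 := (hasDerivAt_pow 5 u).const_mul (e / 5)
      convert! (((h1.add h2).add h3).add h4).add h5 using 1
      push_cast
      ring) (by
      apply Continuous.intervalIntegrable
      fun_prop)
  rw [h]
  ring

end Mom

open Mom in
theorem integral_A {r : ℝ → ℝ} (hc : Continuous r) {L : ℝ} (hs : ∀ s, L ≤ |s| → r s = 0) (x : ℝ) :
    ∫ s, A x r s = 2 * ∫ s, r s := by
  have h := general hc hs (w := fun _ => 1) continuous_const x
  simp only [one_mul] at h
  rw [h]
  have h2 := quartic (∫ s, r s) 0 0 0 0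
  simp only [zero_mul, add_zero, mul_zero, zero_div] at h2
  exact h2

open Mom in
theorem integral_sq_A {r : ℝ → ℝ} (hc : Continuous r) {L : ℝ} (hs : ∀ s, L ≤ |s| → r s = 0)
    (x : ℝ) : ∫ s, s ^ 2 * A x r s = 2 * (∫ s, s ^ 2 * r s) + 2 * x ^ 2 / 3 * ∫ s, r s := by
  have h := general hc hs (w := fun s => s ^ 2) (by fun_prop) x
  rw [h]
  have i0 : Integrable r := by simpa using int_mul hc hs (w := fun _ => 1) continuous_const
  have i1 := int_mul hc hs (w := fun s => s) continuous_id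
  have i2 := int_mul hc hs (w := fun s => s ^ 2) (by fun_prop)
  have h1 : ∀ u : ℝ, ∫ s, (s + x * u) ^ 2 * r s =
      (∫ s, s ^ 2 * r s) + (2 * x * ∫ s, s * r s) * u + (x ^ 2 * ∫ s, r s) * u ^ 2 +
        0 * u ^ 3 + 0 * u ^ 4 := by
    intro u
    have e1 : ∀ s, (s + x * u) ^ 2 * r s =
        s ^ 2 * r s + (2 * x * u) * (s * r s) + (x ^ 2 * u ^ 2) * r s := by
      intro s
      ring
    simp_rw [e1]
    rw [lin_eq (lin_int i2 i1 _) i0, lin_eq i2 i1]
    ring
  simp_rw [h1]
  rw [quartic]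
  ring

open Mom in
theorem integral_pow_four_A {r : ℝ → ℝ} (hc : Continuous r) {L : ℝ}
    (hs : ∀ s, L ≤ |s| → r s = 0) (x : ℝ) :
    ∫ s, s ^ 4 * A x r s = 2 * (∫ s, s ^ 4 * r s) + 4 * x ^ 2 * (∫ s, s ^ 2 * r s) +
      2 * x ^ 4 / 5 * ∫ s, r s := by
  have h := general hc hs (w := fun s => s ^ 4) (by fun_prop) x
  rw [h]
  have i0 : Integrable r := by simpa using int_mul hc hs (w := fun _ => 1) continuous_const
  have i1 := int_mul hc hs (w := fun s => s) continuous_id
  have i2 := int_mul hc hs (w := fun s => s ^ 2) (by fun_prop)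
  have i3 := int_mul hc hs (w := fun s => s ^ 3) (by fun_prop)
  have i4 := int_mul hc hs (w := fun s => s ^ 4) (by fun_prop)
  have h1 : ∀ u : ℝ, ∫ s, (s + x * u) ^ 4 * r s =
      (∫ s, s ^ 4 * r s) + (4 * x * ∫ s, s ^ 3 * r s) * u +
        (6 * x ^ 2 * ∫ s, s ^ 2 * r s) * u ^ 2 + (4 * x ^ 3 * ∫ s, s * r s) * u ^ 3 +
        (x ^ 4 * ∫ s, r s) * u ^ 4 := by
    intro u
    have e1 : ∀ s, (s + x * u) ^ 4 * r s =
        s ^ 4 * r s + (4 * x * u) * (s ^ 3 * r s) + (6 * x ^ 2 * u ^ 2) * (s ^ 2 * r s) +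
          (4 * x ^ 3 * u ^ 3) * (s * r s) + (x ^ 4 * u ^ 4) * r s := by
      intro s
      ring
    simp_rw [e1]
    rw [lin_eq (lin_int (lin_int (lin_int i4 i3 _) i2 _) i1 _) i0,
      lin_eq (lin_int (lin_int i4 i3 _) i2 _) i1, lin_eq (lin_int i4 i3 _) i2, lin_eq i4 i3]
    ring
  simp_rw [h1]
  rw [quartic]
  ring

end Slab
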